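import Pool.Agent.H482R3.EA.Stm

set_option autoImplicit false

/-! Project EA (helper482), task INDC: the predicates `InDB` and `InDL` are computable. -/

namespace Pool.Agent.H676R2.EAINDC

open Pool.Agent.H482R3.EA

private theorem cp_of {α : Type} [Primcodable α] {p : α → Prop} (f : α → Bool) (hf : Computable f)
    (h : ∀ a, p a ↔ f a = true) : ComputablePred p := by
  rw [ComputablePred.computable_iff]
  exact ⟨f, hf, funext fun a => propext (h a)⟩

private theorem comp_eq {α β : Type} [Primcodable α] [Primcodable β] [DecidableEq β]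
    {f g : α → β} (hf : Computable f) (hg : Computable g) :
    Computable (fun a => decide (f a = g a)) := by
  have h : Primrec (fun q : β × β => decide (q.1 = q.2)) := by
    have := (Primrec.eq (α := β))
    exact this.decide
  exact h.to_comp.comp (hf.pair hg)

private theorem comp_and {α : Type} [Primcodable α] {f g : α → Bool}
    (hf : Computable f) (hg : Computable g) : Computable (fun a => f a && g a) :=
  (Primrec.and.to_comp).comp hf hg

private theorem cas {P X1 X2 X3 : Type} [Primcodable P] [Primcodable X1] [Primcodable X2]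
    [Primcodable X3] (f1 : P → X1 → Bool) (f2 : P → X2 → Bool) (f3 : P → X3 → Bool)
    (h1 : Computable₂ f1) (h2 : Computable₂ f2) (h3 : Computable₂ f3) :
    Computable (fun p : P × Option (X1 ⊕ (X2 ⊕ X3)) => (Option.casesOn p.2 false
      (fun s => (Sum.casesOn s (fun x => f1 p.1 x) (fun y => (Sum.casesOn y (fun x => f2 p.1 x)
        (fun x => f3 p.1 x) : Bool)) : Bool)) : Bool)) := by
  refine Computable.option_casesOn Computable.snd (Computable.const false) ?_
  have hp : Computable (fun q : (P × Option (X1 ⊕ (X2 ⊕ X3))) × (X1 ⊕ (X2 ⊕ X3)) => q.1.1) :=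
    Computable.fst.comp Computable.fst
  refine Computable.sumCasesOn (f := fun q : (P × Option (X1 ⊕ (X2 ⊕ X3))) × (X1 ⊕ (X2 ⊕ X3)) =>
    q.2) Computable.snd ?_ ?_
  · exact h1.comp (hp.comp Computable.fst) Computable.snd
  · refine Computable.sumCasesOn (f := fun q : ((P × Option (X1 ⊕ (X2 ⊕ X3))) ×
      (X1 ⊕ (X2 ⊕ X3))) × (X2 ⊕ X3) => q.2) Computable.snd ?_ ?_
    · exact h2.comp (hp.comp (Computable.fst.comp Computable.fst)) Computable.snd
    · exact h3.comp (hp.comp (Computable.fst.comp Computable.fst)) Computable.snd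

section

variable {G V B Y : Type} [Primcodable G] [Primcodable V] [Primcodable B] [Primcodable Y]
  [DecidableEq V] [DecidableEq B]

private theorem l0 {t : G → Bool} (ht : Computable t) {cb : G → G → G} (hcb : Computable₂ cb) :
    Computable₂ (fun (p : G) (x : G × Y) => t (cb x.1 p)) := by
  have h1 : Computable (fun q : G × (G × Y) => q.2.1) := Computable.fst.comp Computable.snd
  have h2 : Computable (fun q : G × (G × Y) => q.1) := Computable.fst
  exact ht.comp (hcb.comp h1 h2)

private theorem l1 {tz : B × G → Bool} (htz : Computable tz) {cb : G → G → G}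
    (hcb : Computable₂ cb) :
    Computable₂ (fun (p : G × V × B) (x : G × V × Y) =>
      decide (p.2.1 = x.2.1) && tz (p.2.2, cb x.1 p.1)) := by
  have h1 : Computable (fun q : (G × V × B) × (G × V × Y) => q.2.1) :=
    Computable.fst.comp Computable.snd
  have h2 : Computable (fun q : (G × V × B) × (G × V × Y) => q.1.1) :=
    Computable.fst.comp Computable.fst
  have h3 : Computable (fun q : (G × V × B) × (G × V × Y) => q.1.2) :=
    Computable.snd.comp Computable.fst
  have h4 : Computable (fun q : (G × V × B) × (G × V × Y) => q.1.2.1) :=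
    Computable.fst.comp h3
  have h5 : Computable (fun q : (G × V × B) × (G × V × Y) => q.1.2.2) :=
    Computable.snd.comp h3
  have h6 : Computable (fun q : (G × V × B) × (G × V × Y) => q.2.2.1) :=
    Computable.fst.comp (Computable.snd.comp Computable.snd)
  have h7 : Computable (fun q : (G × V × B) × (G × V × Y) => cb q.2.1 q.1.1) := hcb.comp h1 h2
  exact comp_and (comp_eq h4 h6) (htz.comp (h5.pair h7))

private theorem l3 {tz : B × G → Bool} (htz : Computable tz) {cb : G → G → G}
    (hcb : Computable₂ cb) :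
    Computable₂ (fun (p : G × V × B) (x : G × V × B × Y) =>
      decide (p.2.1 = x.2.1) && (decide (p.2.2 = x.2.2.1) && tz (p.2.2, cb x.1 p.1))) := by
  have h1 : Computable (fun q : (G × V × B) × (G × V × B × Y) => q.2.1) :=
    Computable.fst.comp Computable.snd
  have h2 : Computable (fun q : (G × V × B) × (G × V × B × Y) => q.1.1) :=
    Computable.fst.comp Computable.fst
  have h3 : Computable (fun q : (G × V × B) × (G × V × B × Y) => q.1.2) :=
    Computable.snd.comp Computable.fst
  have h4 : Computable (fun q : (G × V × B) × (G × V × B × Y) => q.1.2.1) :=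
    Computable.fst.comp h3
  have h5 : Computable (fun q : (G × V × B) × (G × V × B × Y) => q.1.2.2) :=
    Computable.snd.comp h3
  have h8 : Computable (fun q : (G × V × B) × (G × V × B × Y) => q.2.2) :=
    Computable.snd.comp Computable.snd
  have h6 : Computable (fun q : (G × V × B) × (G × V × B × Y) => q.2.2.1) :=
    Computable.fst.comp h8
  have h9 : Computable (fun q : (G × V × B) × (G × V × B × Y) => q.2.2.2.1) :=
    Computable.fst.comp (Computable.snd.comp h8)
  have h7 : Computable (fun q : (G × V × B) × (G × V × B × Y) => cb q.2.1 q.1.1) := hcb.comp h1 h2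
  exact comp_and (comp_eq h4 h6) (comp_and (comp_eq h5 h9) (htz.comp (h5.pair h7)))

end

private theorem p1 (a b : ℕ) (c : Fin a ⊕ Fin b → Fin a ⊕ Fin b → ℕ) (t : W (Fin b) → Bool)
    (hT : ∀ u, Triv (cW c) u ↔ t u = true)
    (hl0 : Computable₂ (fun (g : W (Fin b)) (x : W (Fin b) × Fin a × Bool × ℕ) =>
      t (inv x.1 ++ g)))
    (hl1 : Computable₂ (fun (g : W (Fin b)) (x : W (Fin b) × W (Fin a)) => t (inv x.1 ++ g))) :
    ComputablePred (fun p : W (Fin b) × Option (Syl (Fin a) (Fin b)) => InDB c p.1 p.2) := by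
  have h := (cas (P := W (Fin b)) (X1 := W (Fin b) × Fin a × Bool × ℕ)
      (X2 := W (Fin b) × W (Fin a)) (X3 := W (Fin b) × Fin a × Fin b × W ℕ)
      (fun g x => t (inv x.1 ++ g)) (fun g x => t (inv x.1 ++ g)) (fun _ _ => false)
      hl0 hl1 (Computable.const false))
  refine cp_of _ h ?_
  rintro ⟨g, s⟩
  rcases s with _ | (⟨g', v', x⟩ | (⟨g', y⟩ | ⟨g', v', w', y⟩))
  · simp [InDB]
  · exact hT _
  · exact hT _
  · simp [InDB]

private theorem p2 (a b : ℕ) (c : Fin a ⊕ Fin b → Fin a ⊕ Fin b → ℕ) (t : W (Fin b) → Bool)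
    (tz : Fin b × W (Fin b) → Bool)
    (hT : ∀ w u, inz c w u ↔ tz (w, u) = true)
    (hl1 : Computable₂ (fun (p : W (Fin b) × Fin a × Fin b) (x : W (Fin b) × Fin a × Bool × ℕ) =>
      decide (p.2.1 = x.2.1) && tz (p.2.2, inv x.1 ++ p.1)))
    (hl3 : Computable₂ (fun (p : W (Fin b) × Fin a × Fin b)
      (x : W (Fin b) × Fin a × Fin b × W ℕ) =>
      decide (p.2.1 = x.2.1) && (decide (p.2.2 = x.2.2.1) && tz (p.2.2, inv x.1 ++ p.1)))) :
    ComputablePred (fun p : (W (Fin b) × Fin a × Fin b) × Option (Syl (Fin a) (Fin b)) =>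
      InDL c p.1.1 p.1.2.1 p.1.2.2 p.2) := by
  have h := (cas (P := W (Fin b) × Fin a × Fin b) (X1 := W (Fin b) × Fin a × Bool × ℕ)
      (X2 := W (Fin b) × W (Fin a)) (X3 := W (Fin b) × Fin a × Fin b × W ℕ)
      (fun p x => decide (p.2.1 = x.2.1) && tz (p.2.2, inv x.1 ++ p.1))
      (fun _ _ => false)
      (fun p x => decide (p.2.1 = x.2.1) && (decide (p.2.2 = x.2.2.1) &&
        tz (p.2.2, inv x.1 ++ p.1)))
      hl1 (Computable.const false) hl3)
  refine cp_of _ h ?_
  rintro ⟨⟨g, v, w⟩, s⟩
  rcases s with _ | (⟨g', v', x⟩ | (⟨g', y⟩ | ⟨g', v', w', y⟩))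
  · simp [InDL]
  · simp only [InDL, hT, Bool.and_eq_true, decide_eq_true_eq]
  · simp [InDL]
  · simp only [InDL, hT, Bool.and_eq_true, decide_eq_true_eq]

theorem t_INDC (hB : S_BAS) (_hP : S_CP) : S_INDC := by
  intro a b c hc
  obtain ⟨hinv, hfil, -⟩ := hB b
  rw [ComputablePred.computable_iff] at hc
  obtain ⟨t, ht, hpt⟩ := hc
  have hT : ∀ u, Triv (cW c) u ↔ t u = true := fun u => by rw [hpt]
  have hz : Computable (fun p : Fin b × W (Fin b) => t (p.2 ++ inv (fil p.1 p.2))) :=
    ht.comp (Computable.list_append.comp Computable.snd (hinv.comp hfil))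
  have hcb : Computable₂ (fun g' g : W (Fin b) => inv g' ++ g) :=
    Computable.list_append.comp (hinv.comp Computable.fst) Computable.snd
  have hl0 := l0 (Y := Fin a × Bool × ℕ) ht hcb
  have hl0' := l0 (Y := W (Fin a)) ht hcb
  have hl1 := l1 (V := Fin a) (Y := Bool × ℕ) hz hcb
  have hl3 := l3 (V := Fin a) (Y := W ℕ) hz hcb
  exact ⟨p1 a b c t hT hl0 hl0', p2 a b c t (fun p => t (p.2 ++ inv (fil p.1 p.2)))
    (fun w u => hT _) hl1 hl3⟩

end Pool.Agent.H676R2.EAINDC
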